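import Pool.Agent.MP_e2b804_an.Defs
import Pool.Agent.MP_e2b804_an.Deriv
import Pool.Agent.MP_e2b804_an.Conc
open Real MeasureTheory Metric Filter Set Laplacian
open scoped Topology ContDiff

noncomputable section
namespace Pool.Agent.Results.MP_e2b804_an.MixedBlowup

open Pool.Agent.MP_e2b804_an

theorem slicePt_zero (a : EuclideanSpace ℝ (Fin 3)) : slicePt a 0 = -1 := by
  simp [slicePt]

/-- isolation of a point from a finite set, within the open domain -/
theorem exists_radius (F : Finset E4) {x : E4} (hx : x ∈ Om) :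
    ∃ r0 : ℝ, 0 < r0 ∧ ∀ r, 0 < r → r < r0 → ball x r ⊆ Om ∧ ∀ a ∈ F, a ≠ x → r < ‖a - x‖ := by
  have hop : IsOpen (Om \ ((F : Set E4) \ {x})) :=
    isOpen_Om.sdiff (F.finite_toSet.subset sdiff_subset).isClosed
  obtain ⟨r0, hr0, hb⟩ := Metric.isOpen_iff.mp hop x ⟨hx, fun h => h.2 rfl⟩
  refine ⟨r0, hr0, fun r hr hrr => ⟨fun y hy => (hb (ball_subset_ball hrr.le hy)).1, ?_⟩⟩
  intro a ha hax
  by_contra hle
  push Not at hle
  have h1 : a ∈ ball x r0 := by
    rw [mem_ball, dist_eq_norm]; exact lt_of_le_of_lt hle hrr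
  exact (hb h1).2 ⟨ha, hax⟩

theorem phi_eq_zero_iff {x : E4} (hx : x ∈ Om) : phi x = 0 ↔ x 0 = 1 := by
  have h1 : phi x = -(1/3) * (x 0 - 1) ^ 2 * (x 0 + 2) := by unfold phi; ring
  have h2 : x 0 + 2 ≠ 0 := by have := hx.1; linarith
  rw [h1]
  constructor
  · intro h
    have h3 : (x 0 - 1) ^ 2 = 0 := by
      rcases mul_eq_zero.mp h with h | h
      · rcases mul_eq_zero.mp h with h | h
        · norm_num at h
        · exact h
      · exact absurd h h2
    have := pow_eq_zero_iff (two_ne_zero) |>.mp h3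
    linarith
  · intro h; rw [h]; ring

/-- For every finite `A ⊆ ℝ³` there is a sequence of solutions with concentration blow-up set
`{-1} × A` which blows up polyharmonically with profile `φ`. -/
theorem result (A : Set (EuclideanSpace ℝ (Fin 3))) (hA : A.Finite) :
    ∃ (V u : ℕ → E4 → ℝ) (V0 : E4 → ℝ) (β : ℕ → ℝ),
      IsSolutionSeq V u V0 ∧
      concentrationSet V u = slicePt '' A ∧
      InK (concentrationSet V u) phi ∧
      zeroSet (concentrationSet V u) phi = {x : E4 | x 0 = 1} ∧
      Tendsto β atTop atTop ∧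
      ∀ α : ℝ, 0 ≤ α → α < 1 →
        ConvC3Holder (Om \ (concentrationSet V u ∪ zeroSet (concentrationSet V u) phi)) α
          (fun k x => u k x / β k) phi := by
  classical
  set F : Finset E4 := hA.toFinset.image slicePt with hF
  have hFcoe : (F : Set E4) = slicePt '' A := by simp [hF]
  have hF0 : ∀ a ∈ F, a 0 = -1 := by
    intro a ha
    obtain ⟨b, -, rfl⟩ := Finset.mem_image.mp ha
    exact slicePt_zero b
  obtain ⟨C, hC⟩ := integral_bound F hF0
  obtain ⟨T0, hT0⟩ := eventually_atTop.mp (hC.and (V_bounded F hF0))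
  set s : ℕ → ℝ := fun k => (k : ℝ) + T0 with hs
  have hsge : ∀ k, T0 ≤ s k := fun k => by
    have : (0:ℝ) ≤ k := k.cast_nonneg
    simp only [hs]; linarith
  have hst : Tendsto s atTop atTop := tendsto_atTop_add_const_right _ _ tendsto_natCast_atTop_atTop
  set u' : ℕ → E4 → ℝ := fun k => u F (s k) with hu'
  set V' : ℕ → E4 → ℝ := fun k => V F (s k) with hV'
  -- the masses of small balls
  have hmass : ∀ x ∈ Om, Tendsto (liminfMass V' u' x) (𝓝[>] 0)
      (𝓝 (((if x ∈ F then 16 * π ^ 2 else 0 : ℝ)) : EReal)) := by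
    intro x hx
    obtain ⟨r0, hr0, hr⟩ := exists_radius F hx
    have hev : ∀ᶠ r in 𝓝[>] (0:ℝ), liminfMass V' u' x r =
        ((if x ∈ F then 16 * π ^ 2 else 0 : ℝ) : EReal) := by
      filter_upwards [Ioo_mem_nhdsGT hr0] with r hrr
      obtain ⟨hb, hsep⟩ := hr r hrr.1 hrr.2
      have h1 := (concentration F hF0 hrr.1 hb hsep).comp hst
      have h2 : (fun k => ∫ y in ball x r, V' k y * Real.exp (4 * u' k y)) =
          (fun t => ∫ y in ball x r, D2 (u F t) y) ∘ s := by
        ext1 k
        simp only [Function.comp_apply, hu', hV']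
        exact integral_congr_ae (Eventually.of_forall fun y => (equation F (s k) y).symm)
      rw [← h2] at h1
      exact ((continuous_coe_real_ereal.tendsto _).comp h1).liminf_eq
    exact (tendsto_congr' hev).mpr tendsto_const_nhds
  have hconc : concentrationSet V' u' = slicePt '' A := by
    rw [← hFcoe]
    ext x
    constructor
    · rintro ⟨hx, Λ, h1, h2⟩
      by_contra hn
      have hn' : x ∉ F := fun h => hn h
      have h3 := tendsto_nhds_unique h1 (hmass x hx)
      rw [if_neg hn'] at h3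
      rw [h3] at h2
      have h4 : (8 * π ^ 2 : ℝ) ≤ 0 := by exact_mod_cast h2
      have h5 : (0:ℝ) < 8 * π ^ 2 := by positivity
      linarith
    · intro h
      have hx0 : x 0 = -1 := hF0 x h
      have hx : x ∈ Om := ⟨by rw [hx0]; norm_num, by rw [hx0]; norm_num⟩
      refine ⟨hx, _, hmass x hx, ?_⟩
      have h' : x ∈ F := h
      rw [if_pos h']
      have : (8 * π ^ 2 : ℝ) ≤ 16 * π ^ 2 := by nlinarith [sq_nonneg π]
      exact_mod_cast this
  have hzero : zeroSet (concentrationSet V' u') phi = {x : E4 | x 0 = 1} := by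
    ext x
    constructor
    · rintro ⟨⟨hx, -⟩, h⟩
      exact (phi_eq_zero_iff hx).mp h
    · intro h
      have h : x 0 = 1 := h
      have hx : x ∈ Om := ⟨by rw [h]; norm_num, by rw [h]; norm_num⟩
      refine ⟨⟨hx, ?_⟩, (phi_eq_zero_iff hx).mpr h⟩
      rw [hconc, ← hFcoe]
      intro hm
      have := hF0 x hm
      rw [h] at this
      norm_num at this
  refine ⟨V', u', fun _ => 6, fun k => (s k) ^ 2, ?_, hconc, ?_, hzero, ?_, ?_⟩
  · refine ⟨fun k => contDiff_u F _, fun k => continuous_V F _, fun k => (hT0 _ (hsge k)).2,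
      fun k x _ => equation F _ x, ⟨C, fun k => (hT0 _ (hsge k)).1⟩, continuousOn_const,
      fun _ _ => by norm_num, ?_⟩
    rw [tendstoLocallyUniformlyOn_iff_forall_isCompact isOpen_Om]
    intro K hKO hK
    rw [Metric.tendstoUniformlyOn_iff]
    intro η hη
    filter_upwards [hst.eventually (V_tendsto F hF0 hK hKO (half_pos hη))] with k hk x hx
    rw [dist_comm, Real.dist_eq]
    exact lt_of_le_of_lt (hk x hx) (half_lt_self hη)
  · refine ⟨contDiff_phi.contDiffOn, fun x hx => phi_nonpos hx.1, ?_, fun x _ => D2_phi x⟩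
    refine ⟨0, ⟨⟨by simp, by simp⟩, ?_⟩, ?_⟩
    · rw [hconc, ← hFcoe]
      intro h
      have := hF0 0 h
      simp at this
    · simp [phi]
  · exact (tendsto_pow_atTop two_ne_zero).comp hst
  · intro α hα0 hα1 K hKsub hK η hη
    rw [hconc, ← hFcoe] at hKsub
    have hKO : K ⊆ Om := fun x hx => (hKsub hx).1
    have hKA : ∀ a ∈ F, a ∉ K := fun a ha h => (hKsub h).2 (Or.inl ha)
    filter_upwards [hst.eventually (deriv_tendsto F hF0 hK hKO hKA hη),
      hst.eventually (holder_tendsto F hF0 hK hKO hKA hα0 hα1.le hη)] with k h1 h2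
    exact ⟨fun x hx j hj => h1 x hx j (by omega), h2⟩

end Pool.Agent.Results.MP_e2b804_an.MixedBlowup
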